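import Pool.Agent.Q181.TG.Stm1

set_option autoImplicit false

/-!
# Strips: chains inside a set, periodic paths and their translates
-/

namespace Pool.Agent.Q128.TG

open Pool.Agent.Q181.BD Pool.Agent.Q181.TG

variable {V : Type} {W : V → V → ℤ}

theorem CI.mono {A B : Set V} (h : A ⊆ B) {u v : V} (H : CI W A u v) : CI W B u v := by
  induction H with
  | refl => exact Relation.ReflTransGen.refl
  | tail _ hbc ih =>
    exact Relation.ReflTransGen.tail ih ⟨hbc.1, h hbc.2.1, h hbc.2.2⟩

theorem CI.symm' {A : Set V} (hs : ∀ u v, W u v = W v u) {u v : V} (H : CI W A u v) :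
    CI W A v u := by
  induction H with
  | refl => exact Relation.ReflTransGen.refl
  | tail _ hbc ih =>
    exact Relation.ReflTransGen.head ⟨by rw [hs]; exact hbc.1, hbc.2.2, hbc.2.1⟩ ih

theorem CI.one {A : Set V} {u v : V} (h : W u v ≠ 0) (hu : u ∈ A) (hv : v ∈ A) : CI W A u v :=
  Relation.ReflTransGen.single ⟨h, hu, hv⟩

/-- the chain can be taken among the vertices which lie on chains from `u` to `w` -/
theorem CI.through {A : Set V} {u w : V} (H : CI W A u w) :
    CI W {x | x ∈ A ∧ CI W A u x ∧ CI W A x w} u w := by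
  have key : ∀ {a : V}, CI W A a w → CI W A u a →
      CI W {x | x ∈ A ∧ CI W A u x ∧ CI W A x w} a w := by
    intro a ha
    induction ha using Relation.ReflTransGen.head_induction_on with
    | refl => intro _; exact Relation.ReflTransGen.refl
    | head hac hcw ih =>
      intro hua
      have huc := Relation.ReflTransGen.tail hua hac
      exact Relation.ReflTransGen.head
        ⟨hac.1, ⟨hac.2.1, hua, Relation.ReflTransGen.head hac hcw⟩, ⟨hac.2.2, huc, hcw⟩⟩
        (ih huc)
  exact key H Relation.ReflTransGen.refl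

theorem W_zpow {T : Equiv.Perm V} (hi : ∀ u v, W (T u) (T v) = W u v) (n : ℤ) (u v : V) :
    W ((T ^ n) u) ((T ^ n) v) = W u v := by
  have hpos : ∀ m : ℕ, ∀ u v, W ((T ^ m) u) ((T ^ m) v) = W u v := by
    intro m
    induction m with
    | zero => intro u v; simp
    | succ k ih => intro u v; rw [pow_succ, Equiv.Perm.mul_apply, Equiv.Perm.mul_apply, ih, hi]
  rcases Int.eq_nat_or_neg n with ⟨m, rfl | rfl⟩
  · simpa using hpos m u v
  · have h := hpos m ((T ^ (-(m : ℤ))) u) ((T ^ (-(m : ℤ))) v)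
    rw [← h]
    have e : ∀ x, (T ^ m) ((T ^ (-(m : ℤ))) x) = x := by
      intro x
      have e1 : (T ^ m) ((T ^ (-(m : ℤ))) x) = (T ^ (m : ℤ) * T ^ (-(m : ℤ))) x := by
        rw [Equiv.Perm.mul_apply, zpow_natCast]
      rw [e1, ← zpow_add]
      simp
    rw [e, e]

theorem CI.map {T : Equiv.Perm V} (hi : ∀ u v, W (T u) (T v) = W u v) {A B : Set V} (n : ℤ)
    (hAB : ∀ x ∈ A, (T ^ n) x ∈ B) {u v : V} (H : CI W A u v) :
    CI W B ((T ^ n) u) ((T ^ n) v) := by
  induction H with
  | refl => exact Relation.ReflTransGen.refl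
  | tail _ hbc ih =>
    exact Relation.ReflTransGen.tail ih
      ⟨by rw [W_zpow hi]; exact hbc.1, hAB _ hbc.2.1, hAB _ hbc.2.2⟩

theorem per_shift {T : Equiv.Perm V} {z : ℤ → V} {d : ℤ} {L : ℕ} (h : Per W T z d L) (m j : ℤ) :
    (T ^ (d * m)) (z j) = z (j + m * L) := by
  have hpos : ∀ m : ℕ, ∀ j, (T ^ (d * (m : ℤ))) (z j) = z (j + m * L) := by
    intro m
    induction m with
    | zero => intro j; simp
    | succ k ih =>
      intro j
      have e : d * ((k + 1 : ℕ) : ℤ) = d * k + d := by push_cast; ring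
      rw [e, zpow_add, Equiv.Perm.mul_apply, h.per, ih]
      congr 1; push_cast; ring
  rcases Int.eq_nat_or_neg m with ⟨k, rfl | rfl⟩
  · exact hpos k j
  · have h1 := hpos k (j + -(k : ℤ) * L)
    have e : j + -(k : ℤ) * L + k * L = j := by ring
    rw [e] at h1
    rw [← h1, ← Equiv.Perm.mul_apply, ← zpow_add]
    simp

theorem per_offs {T : Equiv.Perm V} {z : ℤ → V} {d : ℤ} {L : ℕ} (h : Per W T z d L) (m : ℤ)
    {x : V} (hx : x ∈ Offs z) : (T ^ (d * m)) x ∈ Offs z := by
  intro i hi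
  apply hx (i + (-m) * L)
  rw [← per_shift h, hi, ← Equiv.Perm.mul_apply, ← zpow_add]
  simp

theorem per_adj' {T : Equiv.Perm V} {z : ℤ → V} {d : ℤ} {L : ℕ} (hs : ∀ u v, W u v = W v u)
    (h : Per W T z d L) (j : ℤ) : W (z (j + 1)) (z j) ≠ 0 := by
  rw [hs]; exact h.adj j

/-- a segment of the path -/
theorem CI.seg {z : ℤ → V} {A : Set V} (hadj : ∀ j, W (z j) (z (j + 1)) ≠ 0) {k l : ℤ}
    (hkl : k ≤ l) (hA : ∀ m, k ≤ m → m ≤ l → z m ∈ A) : CI W A (z k) (z l) := by
  obtain ⟨n, rfl⟩ := Int.le.dest hkl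
  induction n with
  | zero => simp; exact Relation.ReflTransGen.refl
  | succ n ih =>
    have h1 := ih (by omega) (fun m h1 h2 => hA m h1 (by push_cast; omega))
    refine Relation.ReflTransGen.tail h1 ⟨?_, hA _ (by omega) (by push_cast; omega),
      hA _ (by push_cast; omega) (by push_cast; omega)⟩
    have := hadj (k + n)
    have e : k + ((n + 1 : ℕ) : ℤ) = k + n + 1 := by push_cast; ring
    rw [e]; exact this

end Pool.Agent.Q128.TG
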