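import Pool.Agent.Q128.TG.Core

set_option autoImplicit false

/-!
# From a chain of ears to two disjoint periodic paths
-/

namespace Pool.Agent.Q128.TG

open Pool.Agent.Q181.BD Pool.Agent.Q181.TG

variable {V : Type} {W : V → V → ℤ}

/-- the bridge of the ear `a`, `b` -/
def Bri (W : V → V → ℤ) (z : ℤ → V) (a b : ℤ) : Set V :=
  {x | x ∈ Offs z ∧ ∃ w w', w ∈ Offs z ∧ w' ∈ Offs z ∧ CI W (Offs z) w x ∧ CI W (Offs z) x w' ∧
    W (z a) w ≠ 0 ∧ W w' (z b) ≠ 0}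

/-- every second block -/
def Blk (W : V → V → ℤ) (z : ℤ → V) (i a : ℤ → ℤ) (e : ℤ) : Set V :=
  {x | ∃ q : ℤ, (∃ k, i (2 * q + e + 1) ≤ k ∧ k ≤ a (2 * q + e + 2) ∧ z k = x) ∨
    x ∈ Bri W z (a (2 * q + e)) (i (2 * q + e + 1))}

theorem Blk.seg {z : ℤ → V} {i a : ℤ → ℤ} {e : ℤ} (j : ℤ) (hj : ∃ q, j = 2 * q + e) {k : ℤ}
    (h1 : i (j + 1) ≤ k) (h2 : k ≤ a (j + 2)) : z k ∈ Blk W z i a e := by
  obtain ⟨q, rfl⟩ := hj
  exact ⟨q, Or.inl ⟨k, h1, h2, rfl⟩⟩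

theorem Blk.bri {z : ℤ → V} {i a : ℤ → ℤ} {e : ℤ} (j : ℤ) (hj : ∃ q, j = 2 * q + e) {x : V}
    (hx : x ∈ Bri W z (a j) (i (j + 1))) : x ∈ Blk W z i a e := by
  obtain ⟨q, rfl⟩ := hj
  exact ⟨q, Or.inr hx⟩

section

variable {T : Equiv.Perm V} {z : ℤ → V} {d : ℤ} {L : ℕ} {i a : ℤ → ℤ}

theorem istep (hord : ∀ j, i j ≤ a (j + 1) ∧ a (j + 1) < i (j + 1)) : StrictMono i := by
  apply strictMono_int_of_lt_succ
  intro j
  exact lt_of_le_of_lt (hord j).1 (hord j).2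

theorem Blk.start (hord : ∀ j, i j ≤ a (j + 1) ∧ a (j + 1) < i (j + 1)) {e : ℤ} (j : ℤ)
    (hj : ∃ q, j = 2 * q + e) : z (i (j + 1)) ∈ Blk W z i a e := by
  refine Blk.seg j hj le_rfl ?_
  have := (hord (j + 1)).1
  have e2 : j + 1 + 1 = j + 2 := by ring
  rwa [e2] at this

theorem Blk.fin (hord : ∀ j, i j ≤ a (j + 1) ∧ a (j + 1) < i (j + 1)) {e : ℤ} (j : ℤ)
    (hj : ∃ q, j = 2 * q + e) : z (a j) ∈ Blk W z i a e := by
  obtain ⟨q, rfl⟩ := hj
  have h := (hord (2 * (q - 1) + e + 1)).1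
  have e1 : 2 * (q - 1) + e + 1 + 1 = 2 * q + e := by ring
  have e2 : 2 * (q - 1) + e + 2 = 2 * q + e := by ring
  rw [e1] at h
  refine ⟨q - 1, Or.inl ⟨_, ?_, ?_, rfl⟩⟩
  · exact h
  · rw [e2]

/-- the ear number `j` connects its ends inside the block -/
theorem Blk.ear (hs : ∀ u v, W u v = W v u)
    (hord : ∀ j, i j ≤ a (j + 1) ∧ a (j + 1) < i (j + 1)) {e : ℤ} (j : ℤ)
    (hj : ∃ q, j = 2 * q + e) (hear : Ear W z (a j) (i (j + 1))) :
    CI W (Blk W z i a e) (z (a j)) (z (i (j + 1))) := by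
  rcases hear with h | ⟨u, w, hu, hw, h1, h2, h3⟩
  · exact CI.one h (Blk.fin hord j hj) (Blk.start hord j hj)
  · have hsub : {x | x ∈ Offs z ∧ CI W (Offs z) u x ∧ CI W (Offs z) x w} ⊆ Blk W z i a e := by
      intro x hx
      exact Blk.bri j hj ⟨hx.1, u, w, hu, hw, hx.2.1, hx.2.2, h1, h3⟩
    have hmid := CI.mono hsub (CI.through h2)
    have hu' : u ∈ Blk W z i a e := hsub ⟨hu, Relation.ReflTransGen.refl, h2⟩
    have hw' : w ∈ Blk W z i a e := hsub ⟨hw, h2, Relation.ReflTransGen.refl⟩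
    exact ((CI.one h1 (Blk.fin hord j hj) hu').trans hmid).trans
      (CI.one h3 hw' (Blk.start hord j hj))

theorem Blk.segc (hadj : ∀ j, W (z j) (z (j + 1)) ≠ 0) {e : ℤ} (j : ℤ)
    (hj : ∃ q, j = 2 * q + e) {k : ℤ} (h1 : i (j + 1) ≤ k) (h2 : k ≤ a (j + 2)) :
    CI W (Blk W z i a e) (z (i (j + 1))) (z k) :=
  CI.seg hadj h1 (fun m hm1 hm2 => Blk.seg j hj hm1 (hm2.trans h2))

theorem Blk.next (hs : ∀ u v, W u v = W v u) (hadj : ∀ j, W (z j) (z (j + 1)) ≠ 0)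
    (hord : ∀ j, i j ≤ a (j + 1) ∧ a (j + 1) < i (j + 1))
    (hear : ∀ j, Ear W z (a j) (i (j + 1))) {e : ℤ} (j : ℤ)
    (hj : ∃ q, j = 2 * q + e) :
    CI W (Blk W z i a e) (z (i (j + 1))) (z (i (j + 2 + 1))) := by
  have h := (hord (j + 1)).1
  have e2 : j + 1 + 1 = j + 2 := by ring
  rw [e2] at h
  have h1 := Blk.segc (W := W) (a := a) hadj j hj h le_rfl
  have hj2 : ∃ q, j + 2 = 2 * q + e := by
    obtain ⟨q, rfl⟩ := hj
    exact ⟨q + 1, by ring⟩
  exact h1.trans (Blk.ear hs hord (j + 2) hj2 (hear _))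

theorem Blk.base (hs : ∀ u v, W u v = W v u) (hadj : ∀ j, W (z j) (z (j + 1)) ≠ 0)
    (hord : ∀ j, i j ≤ a (j + 1) ∧ a (j + 1) < i (j + 1))
    (hear : ∀ j, Ear W z (a j) (i (j + 1))) (e : ℤ) (q : ℤ) :
    CI W (Blk W z i a e) (z (i (e + 1))) (z (i (2 * q + e + 1))) := by
  have hn : ∀ n : ℕ, ∀ q : ℤ, CI W (Blk W z i a e) (z (i (2 * q + e + 1)))
      (z (i (2 * (q + n) + e + 1))) := by
    intro n
    induction n with
    | zero => intro q; simp; exact Relation.ReflTransGen.refl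
    | succ n ih =>
      intro q
      refine (ih q).trans ?_
      have h := Blk.next hs hadj hord hear (e := e) (2 * (q + n) + e) ⟨_, rfl⟩
      have e3 : 2 * (q + (n : ℤ)) + e + 2 + 1 = 2 * (q + ((n + 1 : ℕ) : ℤ)) + e + 1 := by
        push_cast; ring
      rw [e3] at h
      exact h
  rcases Int.eq_nat_or_neg q with ⟨n, rfl | rfl⟩
  · have := hn n 0
    simpa using this
  · have := hn n (-(n : ℤ))
    simp only [neg_add_cancel, mul_zero, zero_add] at this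
    exact CI.symm' hs this

theorem Blk.conn (hs : ∀ u v, W u v = W v u) (hadj : ∀ j, W (z j) (z (j + 1)) ≠ 0)
    (hord : ∀ j, i j ≤ a (j + 1) ∧ a (j + 1) < i (j + 1))
    (hear : ∀ j, Ear W z (a j) (i (j + 1))) (e : ℤ) :
    ∀ u ∈ Blk W z i a e, ∀ v ∈ Blk W z i a e, CI W (Blk W z i a e) u v := by
  have key : ∀ x ∈ Blk W z i a e, CI W (Blk W z i a e) (z (i (e + 1))) x := by
    rintro x ⟨q, ⟨k, h1, h2, rfl⟩ | hx⟩
    · exact (Blk.base hs hadj hord hear e q).trans (Blk.segc hadj _ ⟨q, rfl⟩ h1 h2)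
    · refine (Blk.base hs hadj hord hear e q).trans ?_
      refine (CI.symm' hs (Blk.ear hs hord _ ⟨q, rfl⟩ (hear _))).trans ?_
      obtain ⟨hxo, w, w', hw, hw', h1, h2, h3, h4⟩ := hx
      have hsub : {y | y ∈ Offs z ∧ CI W (Offs z) w y ∧ CI W (Offs z) y x} ⊆
          Blk W z i a e := by
        intro y hy
        exact Blk.bri _ ⟨q, rfl⟩ ⟨hy.1, w, w', hw, hw', hy.2.1, hy.2.2.trans h2, h3, h4⟩
      have hmid := CI.mono hsub (CI.through h1)
      have hw1 : w ∈ Blk W z i a e := hsub ⟨hw, Relation.ReflTransGen.refl, h1⟩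
      exact (CI.one h3 (Blk.fin hord _ ⟨q, rfl⟩) hw1).trans hmid
  intro u hu v hv
  exact (CI.symm' hs (key u hu)).trans (key v hv)

theorem Blk.inv (hi : ∀ u v, W (T u) (T v) = W u v) (hp : Per W T z d L) {e : ℤ} {p m : ℤ}
    (h1 : ∀ j, i (j + 2 * p) = i j + m * L) (h2 : ∀ j, a (j + 2 * p) = a j + m * L)
    {x : V} (hx : x ∈ Blk W z i a e) : (T ^ (d * m)) x ∈ Blk W z i a e := by
  obtain ⟨q, ⟨k, hk1, hk2, rfl⟩ | hx⟩ := hx
  · rw [per_shift hp]
    refine ⟨q + p, Or.inl ⟨k + m * L, ?_, ?_, rfl⟩⟩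
    · have e1 : 2 * (q + p) + e + 1 = 2 * q + e + 1 + 2 * p := by ring
      rw [e1, h1]; omega
    · have e1 : 2 * (q + p) + e + 2 = 2 * q + e + 2 + 2 * p := by ring
      rw [e1, h2]; omega
  · obtain ⟨hxo, w, w', hw, hw', k1, k2, k3, k4⟩ := hx
    refine ⟨q + p, Or.inr ⟨per_offs hp m hxo, (T ^ (d * m)) w, (T ^ (d * m)) w', per_offs hp m hw,
      per_offs hp m hw', CI.map hi _ (fun y hy => per_offs hp m hy) k1,
      CI.map hi _ (fun y hy => per_offs hp m hy) k2, ?_, ?_⟩⟩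
    · have e1 : 2 * (q + p) + e = 2 * q + e + 2 * p := by ring
      rw [e1, h2, ← per_shift hp, W_zpow hi]; exact k3
    · have e1 : 2 * (q + p) + e + 1 = 2 * q + e + 1 + 2 * p := by ring
      rw [e1, h1, ← per_shift hp, W_zpow hi]; exact k4

theorem Blk.disj (hinj : Function.Injective z)
    (hord : ∀ j, i j ≤ a (j + 1) ∧ a (j + 1) < i (j + 1))
    (hmax : ∀ j x y, x < i j → Ear W z x y → y ≤ i (j + 1)) {e e' : ℤ} (hee : (e - e') % 2 = 1)
    {x : V} (hx : x ∈ Blk W z i a e) (hx' : x ∈ Blk W z i a e') : False := by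
  have hi := istep hord
  have hbb : ∀ j k : ℤ, j < k → x ∈ Bri W z (a j) (i (j + 1)) → x ∈ Bri W z (a k) (i (k + 1)) →
      False := by
    intro j k hjk h1 h2
    obtain ⟨hxo, w, w', hw, hw', k1, k2, k3, k4⟩ := h1
    obtain ⟨-, v, v', hv, hv', l1, l2, l3, l4⟩ := h2
    have hE : Ear W z (a j) (i (k + 1)) :=
      Or.inr ⟨w, v', hw, hv', k3, k1.trans l2, l4⟩
    have h3 : a j < i j := by
      have := (hord (j - 1)).2
      simpa using this
    have h4 := hmax j _ _ h3 hE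
    have h5 : i (j + 1) < i (k + 1) := hi (by omega)
    omega
  obtain ⟨q, ⟨k, hk1, hk2, hk⟩ | hx⟩ := hx
  · obtain ⟨q', ⟨k', hk1', hk2', hk'⟩ | hx'⟩ := hx'
    · have hkk : k = k' := hinj (by rw [hk, hk'])
      subst hkk
      have h2 := (hord (2 * q + e + 1)).2
      have h2' := (hord (2 * q' + e' + 1)).2
      have e1 : 2 * q + e + 1 + 1 = 2 * q + e + 2 := by ring
      have e1' : 2 * q' + e' + 1 + 1 = 2 * q' + e' + 2 := by ring
      rw [e1] at h2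
      rw [e1'] at h2'
      rcases lt_trichotomy (2 * q + e) (2 * q' + e') with h | h | h
      · have : i (2 * q + e + 2) ≤ i (2 * q' + e' + 1) := hi.monotone (by omega)
        omega
      · omega
      · have : i (2 * q' + e' + 2) ≤ i (2 * q + e + 1) := hi.monotone (by omega)
        omega
    · exact hx'.1 k hk
  · obtain ⟨q', ⟨k', hk1', hk2', hk'⟩ | hx'⟩ := hx'
    · exact hx.1 k' hk'
    · rcases lt_trichotomy (2 * q + e) (2 * q' + e') with h | h | h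
      · exact hbb _ _ h hx hx'
      · omega
      · exact hbb _ _ h hx' hx

end

theorem t_ear3 : S_per → S_ear3 := by
  intro hP V W T hS z d L hp i a J s hJ hs hear hord hmax hiper haper
  have hds : d * (s : ℤ) ≠ 0 := mul_ne_zero hp.ne (by exact_mod_cast (by omega : s ≠ 0))
  have hinv : ∀ e v, (T ^ (d * (s : ℤ))) v ∈ Blk W z i a e ↔ v ∈ Blk W z i a e := by
    intro e v
    constructor
    · intro h
      have h1 : ∀ j, i (j + 2 * (-(J : ℤ))) = i j + (-(s : ℤ)) * L := by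
        intro j
        have := hiper (j + 2 * (-(J : ℤ)))
        have e1 : j + 2 * (-(J : ℤ)) + 2 * J = j := by ring
        rw [e1] at this
        linarith
      have h2 : ∀ j, a (j + 2 * (-(J : ℤ))) = a j + (-(s : ℤ)) * L := by
        intro j
        have := haper (j + 2 * (-(J : ℤ)))
        have e1 : j + 2 * (-(J : ℤ)) + 2 * J = j := by ring
        rw [e1] at this
        linarith
      have h3 := Blk.inv hS.inv hp h1 h2 h
      rw [← Equiv.Perm.mul_apply, ← zpow_add] at h3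
      simpa using h3
    · intro h
      exact Blk.inv hS.inv hp hiper haper h
  have hne : ∀ e, (Blk W z i a e).Nonempty := fun e =>
    ⟨_, Blk.start hord e ⟨0, by ring⟩⟩
  obtain ⟨z', d', L', h1, h2⟩ := hP V W T hS (Blk W z i a 1) _ hds (hne 1) (hinv 1)
    (Blk.conn hS.symm hp.adj hord hear 1)
  obtain ⟨z'', d'', L'', h3, h4⟩ := hP V W T hS (Blk W z i a 0) _ hds (hne 0) (hinv 0)
    (Blk.conn hS.symm hp.adj hord hear 0)
  refine ⟨z', z'', d', d'', L', L'', h1, h3, ?_⟩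
  intro x y hxy
  exact Blk.disj hp.inj hord hmax (by norm_num) (h2 x) (hxy ▸ h4 y)

end Pool.Agent.Q128.TG
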