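import Pool.Agent.Q128.TG.Core

set_option autoImplicit false

/-!
# The left part of a strip with a cut vertex
-/

namespace Pool.Agent.Q128.TG

open Pool.Agent.Q181.BD Pool.Agent.Q181.TG

variable {V : Type} {W : V → V → ℤ}

section

variable {T : Equiv.Perm V} {z : ℤ → V} {d : ℤ} {L : ℕ} {i : ℤ}

/-- the left part -/
def Left (W : V → V → ℤ) (z : ℤ → V) (i : ℤ) : Set V := {x | CI W {y | y ≠ z i} (z (i - 1)) x}

theorem Left.step (hs : ∀ u v, W u v = W v u) {x y : V} (h : W x y ≠ 0) (hx : x ≠ z i)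
    (hy : y ≠ z i) : x ∈ Left W z i ↔ y ∈ Left W z i := by
  constructor
  · intro H
    exact Relation.ReflTransGen.tail H ⟨h, hx, hy⟩
  · intro H
    exact Relation.ReflTransGen.tail H ⟨by rw [hs]; exact h, hy, hx⟩

theorem Left.ne (hinj : Function.Injective z) {x : V} (h : x ∈ Left W z i) : x ≠ z i := by
  rcases Relation.ReflTransGen.cases_tail h with h | ⟨b, -, hb⟩
  · rw [h]
    intro h1
    have := hinj h1
    omega
  · exact hb.2.2

theorem Left.inv (hno : ∀ a b, a < i → i < b → ¬ Ear W z a b) {x : V} (h : x ∈ Left W z i) :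
    (∃ k, k < i ∧ z k = x) ∨ (x ∈ Offs z ∧ ∃ a, a < i ∧ ∃ u ∈ Offs z, W (z a) u ≠ 0 ∧
      CI W (Offs z) u x) := by
  classical
  induction h with
  | refl => exact Or.inl ⟨i - 1, by omega, rfl⟩
  | @tail b c hab hbc ih =>
    obtain ⟨hW, hb, hc⟩ := hbc
    rcases ih with ⟨k, hk, rfl⟩ | ⟨hbo, a, ha, u, hu, hau, hub⟩
    · by_cases hco : c ∈ Offs z
      · exact Or.inr ⟨hco, k, hk, c, hco, hW, Relation.ReflTransGen.refl⟩
      · simp only [Offs, Set.mem_ofPred_eq, not_forall, not_not] at hco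
        obtain ⟨l, rfl⟩ := hco
        refine Or.inl ⟨l, ?_, rfl⟩
        rcases lt_trichotomy l i with h | h | h
        · exact h
        · exact absurd (by rw [h]) hc
        · exact absurd (Or.inl hW) (hno k l hk h)
    · by_cases hco : c ∈ Offs z
      · exact Or.inr ⟨hco, a, ha, u, hu, hau, Relation.ReflTransGen.tail hub ⟨hW, hbo, hco⟩⟩
      · simp only [Offs, Set.mem_ofPred_eq, not_forall, not_not] at hco
        obtain ⟨l, rfl⟩ := hco
        refine Or.inl ⟨l, ?_, rfl⟩
        rcases lt_trichotomy l i with h | h | h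
        · exact h
        · exact absurd (by rw [h]) hc
        · exact absurd (Or.inr ⟨u, b, hu, hbo, hau, hub, hW⟩) (hno a l ha h)

theorem Left.path (hs : ∀ u v, W u v = W v u) (hinj : Function.Injective z)
    (hadj : ∀ j, W (z j) (z (j + 1)) ≠ 0) (hno : ∀ a b, a < i → i < b → ¬ Ear W z a b) (k : ℤ) :
    z k ∈ Left W z i ↔ k < i := by
  constructor
  · intro h
    rcases Left.inv hno h with ⟨l, hl, h1⟩ | ⟨h1, -⟩
    · rw [← hinj h1]; exact hl
    · exact absurd rfl (h1 k)
  · intro h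
    obtain ⟨n, hn⟩ := Int.le.dest (show k ≤ i - 1 by omega)
    have key : ∀ n : ℕ, z (i - 1 - n) ∈ Left W z i := by
      intro n
      induction n with
      | zero => simp; exact Relation.ReflTransGen.refl
      | succ n ih =>
        have e1 : i - 1 - ((n + 1 : ℕ) : ℤ) + 1 = i - 1 - n := by push_cast; ring
        have h1 := hadj (i - 1 - ((n + 1 : ℕ) : ℤ))
        rw [e1] at h1
        refine (Left.step hs h1 ?_ ?_).2 ih
        · intro h2; have := hinj h2; push_cast at this; omega
        · intro h2; have := hinj h2; omega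
    have e2 : k = i - 1 - n := by omega
    rw [e2]; exact key n

theorem avoid (hfree : ∀ (n : ℤ) v, (T ^ n) v = v → n = 0) (x v : V) :
    ∃ N : ℕ, ∀ n : ℤ, N ≤ n.natAbs → (T ^ n) x ≠ v := by
  classical
  by_cases h : ∃ n : ℤ, (T ^ n) x = v
  · obtain ⟨m, hm⟩ := h
    refine ⟨m.natAbs + 1, ?_⟩
    intro n hn hnv
    have h1 : (T ^ (n - m)) v = v := by
      have e1 : T ^ (n - m) = T ^ n * T ^ (-m) := by rw [← zpow_add, sub_eq_add_neg]
      rw [e1, Equiv.Perm.mul_apply]
      have h2 : (T ^ (-m)) v = x := by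
        rw [← hm, ← Equiv.Perm.mul_apply, ← zpow_add]; simp
      rw [h2, hnv]
    have := hfree _ _ h1
    omega
  · push Not at h
    exact ⟨0, fun n _ => h n⟩

theorem Left.far (hS : Strip W T) (z : ℤ → V) (i : ℤ) (u w : V) :
    ∃ N : ℕ, ∀ n : ℤ, N ≤ n.natAbs → ((T ^ n) u ∈ Left W z i ↔ (T ^ n) w ∈ Left W z i) := by
  have h := hS.conn u w
  induction h with
  | refl => exact ⟨0, fun _ _ => Iff.rfl⟩
  | @tail b c hab hbc ih =>
    obtain ⟨N, hN⟩ := ih
    obtain ⟨N1, hN1⟩ := avoid hS.free b (z i)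
    obtain ⟨N2, hN2⟩ := avoid hS.free c (z i)
    refine ⟨max N (max N1 N2), ?_⟩
    intro n hn
    have h0 := hN n (le_trans (le_max_left _ _) hn)
    have h1 := hN1 n (le_trans (le_trans (le_max_left _ _) (le_max_right _ _)) hn)
    have h2 := hN2 n (le_trans (le_trans (le_max_right _ _) (le_max_right _ _)) hn)
    rw [h0]
    exact Left.step hS.symm (by rw [W_zpow hS.inv]; exact hbc) h1 h2

end

theorem t_left : S_left := by
  intro V W T hS z d L hp hd i hno
  have hpath := Left.path (W := W) hS.symm hp.inj hp.adj hno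
  refine ⟨z i, Left W z i, ?_, ?_, ?_, ?_, ?_⟩
  · intro h; exact (Left.ne hp.inj h) rfl
  · intro x y h hx hy
    exact Left.step hS.symm h hx hy
  · intro x
    have hfar : ∀ r : ℕ, ∃ N : ℕ, ∀ n : ℤ, N ≤ n.natAbs →
        ((T ^ n) ((T ^ (r : ℤ)) x) ∈ Left W z i ↔ (T ^ n) (z 0) ∈ Left W z i) :=
      fun r => Left.far hS z i _ _
    choose N hN using hfar
    obtain ⟨M, hM⟩ : ∃ M : ℕ, ∀ r : ℕ, (r : ℤ) < d → N r ≤ M := by
      refine ⟨(Finset.range d.toNat).sup N, fun r hr => ?_⟩
      exact Finset.le_sup (f := N) (Finset.mem_range.2 (by omega))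
    have hL := hp.pos
    have key : ∀ n : ℤ, M ≤ (n / d).natAbs → ((T ^ n) x ∈ Left W z i ↔ (n / d) * L < i) := by
      intro n hn
      have h1 := Int.emod_nonneg n hp.ne
      have h2 := Int.emod_lt_of_pos n hd
      have h3 := Int.mul_ediv_add_emod n d
      obtain ⟨r, hr⟩ := Int.eq_ofNat_of_zero_le h1
      rw [hr] at h2 h3
      have h4 : (T ^ n) x = (T ^ (d * (n / d))) ((T ^ (r : ℤ)) x) := by
        rw [← Equiv.Perm.mul_apply, ← zpow_add, h3]
      have h5 : M ≤ (d * (n / d)).natAbs := by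
        rw [Int.natAbs_mul]
        have : 1 ≤ d.natAbs := by omega
        exact le_trans hn (Nat.le_mul_of_pos_left _ this)
      rw [h4, hN r _ (le_trans (hM r h2) h5), per_shift hp, hpath]
      simp
    refine ⟨d.natAbs * (M + i.natAbs + 2), ?_⟩
    intro n hn
    have hn' : d * (M + i.natAbs + 2 : ℕ) ≤ n := by
      have : (d.natAbs : ℤ) = d := Int.natAbs_of_nonneg hd.le
      rw [← this]
      exact_mod_cast hn
    have hq1 : ((M + i.natAbs + 2 : ℕ) : ℤ) ≤ (n : ℤ) / d := by
      rw [Int.le_ediv_iff_mul_le hd]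
      linarith
    have hq2 : (-(n : ℤ)) / d ≤ -((M + i.natAbs + 2 : ℕ) : ℤ) := by
      have h1 : -(n : ℤ) ≤ d * (-((M + i.natAbs + 2 : ℕ) : ℤ)) := by linarith
      calc (-(n : ℤ)) / d ≤ (d * (-((M + i.natAbs + 2 : ℕ) : ℤ))) / d :=
            Int.ediv_le_ediv hd h1
        _ = _ := Int.mul_ediv_cancel_left _ hp.ne
    have hL' : (1 : ℤ) ≤ L := by exact_mod_cast hL
    constructor
    · rw [key _ (by omega)]
      have : (-(n : ℤ)) / d * L ≤ (-(n : ℤ)) / d * 1 :=
        mul_le_mul_of_nonpos_left hL' (by omega)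
      omega
    · rw [key _ (by omega)]
      have : (n : ℤ) / d * 1 ≤ (n : ℤ) / d * L :=
        mul_le_mul_of_nonneg_left hL' (by omega)
      omega
  · intro x hx
    have hsub : {y | y ∈ {y | y ≠ z i} ∧ CI W {y | y ≠ z i} (z (i - 1)) y ∧
        CI W {y | y ≠ z i} y x} ⊆ insert (z i) (Left W z i) := by
      intro y hy
      exact Or.inr hy.2.1
    have h1 := CI.mono hsub (CI.through hx)
    have h2 : W (z (i - 1)) (z i) ≠ 0 := by
      have := hp.adj (i - 1)
      simpa using this
    exact (CI.symm' hS.symm h1).trans (CI.one h2 (Or.inr Relation.ReflTransGen.refl)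
      (Or.inl rfl))
  · intro x hx
    have h := hS.conn x (z i)
    have hv : z i ∉ Left W z i := fun h => (Left.ne hp.inj h) rfl
    induction h using Relation.ReflTransGen.head_induction_on with
    | refl => exact Relation.ReflTransGen.refl
    | @head b c hbc hcv ih =>
      by_cases hb : b = z i
      · rw [hb]; exact Relation.ReflTransGen.refl
      · by_cases hc : c = z i
        · subst hc
          exact CI.one hbc hx hv
        · have hcL : c ∉ Left W z i := fun h => hx ((Left.step hS.symm hbc hb hc).2 h)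
          exact Relation.ReflTransGen.head ⟨hbc, hx, hcL⟩ (ih hcL)

end Pool.Agent.Q128.TG
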